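import Mathlib

/-!
# One-sided barrier selection (after Batson, Spielman and Srivastava)
-/

namespace Pool.Agent.TT

open Matrix Module

/-- Adding a multiple of `D` decreases the trace of the inverse. -/
theorem trace_inv_sub {n : ℕ} {P D : Matrix (Fin n) (Fin n) ℝ} (hP : P.PosDef)
    (hD : D.PosDef) {δ : ℝ} (hδ : 0 < δ) :
    δ * ((P + δ • D)⁻¹ * D * (P + δ • D)⁻¹).trace ≤ (P⁻¹).trace - ((P + δ • D)⁻¹).trace := by
  have hQ : (P + δ • D).PosDef := hP.add (hD.smul hδ)
  set Q := P + δ • D with hQdef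
  set X := Q⁻¹ with hX
  set Y := P⁻¹ with hY
  have hQX : Q * X = 1 := Matrix.mul_nonsing_inv _ ((Matrix.isUnit_iff_isUnit_det _).mp hQ.isUnit)
  have hXQ : X * Q = 1 := Matrix.nonsing_inv_mul _ ((Matrix.isUnit_iff_isUnit_det _).mp hQ.isUnit)
  have hPY : P * Y = 1 := Matrix.mul_nonsing_inv _ ((Matrix.isUnit_iff_isUnit_det _).mp hP.isUnit)
  have hYP : Y * P = 1 := Matrix.nonsing_inv_mul _ ((Matrix.isUnit_iff_isUnit_det _).mp hP.isUnit)
  have h1 : Y - X = δ • (X * D * Y) := by
    calc Y - X = X * Q * Y - X * (P * Y) := by rw [hXQ, hPY, Matrix.one_mul, Matrix.mul_one]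
      _ = X * (Q - P) * Y := by
          rw [Matrix.mul_sub, Matrix.sub_mul]; simp only [Matrix.mul_assoc]
      _ = δ • (X * D * Y) := by
          rw [hQdef, add_sub_cancel_left, Matrix.mul_smul, Matrix.smul_mul]
  have h2 : Y - X = δ • (Y * D * X) := by
    calc Y - X = Y * (Q * X) - (Y * P) * X := by rw [hQX, hYP, Matrix.one_mul, Matrix.mul_one]
      _ = Y * (Q - P) * X := by
          rw [Matrix.mul_sub, Matrix.sub_mul]; simp only [Matrix.mul_assoc]
      _ = δ • (Y * D * X) := by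
          rw [hQdef, add_sub_cancel_left, Matrix.mul_smul, Matrix.smul_mul]
  have h3 : Y - X = δ • (X * D * X) + (δ * δ) • (X * D * Y * D * X) := by
    have : Y = X + δ • (Y * D * X) := by rw [← h2]; abel
    calc Y - X = δ • (X * D * Y) := h1
      _ = δ • (X * D * (X + δ • (Y * D * X))) := by rw [← this]
      _ = _ := by
          rw [Matrix.mul_add, smul_add, Matrix.mul_smul, smul_smul]
          simp only [Matrix.mul_assoc]
  have hXh : Xᴴ = X := hQ.inv.isHermitian.eq
  have hDh : Dᴴ = D := hD.isHermitian.eq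
  have h4 : (X * D * Y * D * X).PosSemidef := by
    have := hP.inv.posSemidef.conjTranspose_mul_mul_same (D * X)
    rw [Matrix.conjTranspose_mul, hXh, hDh] at this
    simpa only [Matrix.mul_assoc] using this
  have h5 := congrArg Matrix.trace h3
  rw [Matrix.trace_sub, Matrix.trace_add, Matrix.trace_smul, Matrix.trace_smul] at h5
  have h6 := h4.trace_nonneg
  rw [h5]
  simp only [smul_eq_mul]
  nlinarith [mul_nonneg (mul_nonneg hδ.le hδ.le) h6]

/-- One rank one downdate. -/
theorem downdate {n : ℕ} {Q : Matrix (Fin n) (Fin n) ℝ} (hQ : Q.PosDef) (u : Fin n → ℝ)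
    (hα : u ⬝ᵥ Q⁻¹ *ᵥ u ≤ 1 / 2) :
    (Q - vecMulVec u u).PosDef ∧
      ((Q - vecMulVec u u)⁻¹).trace ≤ (Q⁻¹).trace + 2 * (u ⬝ᵥ (Q⁻¹ * Q⁻¹) *ᵥ u) := by
  set X := Q⁻¹ with hX
  have hQX : Q * X = 1 := Matrix.mul_nonsing_inv _ ((Matrix.isUnit_iff_isUnit_det _).mp hQ.isUnit)
  have hXh : Xᵀ = X := by
    have := hQ.inv.isHermitian.eq
    rwa [Matrix.conjTranspose_eq_transpose_of_trivial] at this
  have hQh : Qᵀ = Q := by
    have := hQ.isHermitian.eq
    rwa [Matrix.conjTranspose_eq_transpose_of_trivial] at this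
  set α := u ⬝ᵥ X *ᵥ u with hαdef
  constructor
  · apply Matrix.PosDef.of_dotProduct_mulVec_pos
    · apply Matrix.IsHermitian.sub hQ.isHermitian
      rw [Matrix.IsHermitian, Matrix.conjTranspose_eq_transpose_of_trivial,
        Matrix.transpose_vecMulVec]
    · intro x hx
      have hpos := hQ.dotProduct_mulVec_pos hx
      simp only [star_trivial] at hpos ⊢
      set s := u ⬝ᵥ x with hs
      have h1 := hQ.posSemidef.dotProduct_mulVec_nonneg (x - (2 * s) • (X *ᵥ u))
      simp only [star_trivial] at h1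
      have e1 : Q *ᵥ (x - (2 * s) • (X *ᵥ u)) = Q *ᵥ x - (2 * s) • u := by
        rw [Matrix.mulVec_sub, Matrix.mulVec_smul, Matrix.mulVec_mulVec, hQX, Matrix.one_mulVec]
      have e2 : (X *ᵥ u) ⬝ᵥ Q *ᵥ x = s := by
        rw [Matrix.dotProduct_mulVec, ← Matrix.mulVec_transpose, hQh, Matrix.mulVec_mulVec, hQX,
          Matrix.one_mulVec]
      have e3 : (X *ᵥ u) ⬝ᵥ u = α := by rw [dotProduct_comm]
      have e4 : x ⬝ᵥ u = s := dotProduct_comm _ _
      rw [e1, sub_dotProduct, dotProduct_sub, dotProduct_sub, dotProduct_smul, smul_dotProduct,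
        smul_dotProduct, dotProduct_smul, e2, e3, e4] at h1
      simp only [smul_eq_mul] at h1
      have e5 : x ⬝ᵥ (Q - vecMulVec u u) *ᵥ x = x ⬝ᵥ Q *ᵥ x - s ^ 2 := by
        rw [Matrix.sub_mulVec, dotProduct_sub, Matrix.vecMulVec_mulVec, dotProduct_smul, e4, ← hs]
        simp [sq]
      rw [e5]
      nlinarith [sq_nonneg s]
  · have hα1 : 0 < 1 - α := by linarith
    have hinv : (Q - vecMulVec u u)⁻¹ = X + (1 / (1 - α)) • vecMulVec (X *ᵥ u) (X *ᵥ u) := by
      apply Matrix.inv_eq_right_inv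
      rw [Matrix.sub_mul, Matrix.mul_add, Matrix.mul_add, hQX, Matrix.mul_smul, Matrix.mul_smul,
        Matrix.mul_vecMulVec, Matrix.mulVec_mulVec, hQX, Matrix.one_mulVec,
        Matrix.vecMulVec_mul_vecMulVec, Matrix.vecMulVec_mul, ← Matrix.mulVec_transpose, hXh,
        ← hαdef, Matrix.vecMulVec_smul]
      have : (1 / (1 - α)) • vecMulVec u (X *ᵥ u) - (1 / (1 - α)) • α • vecMulVec u (X *ᵥ u) =
          vecMulVec u (X *ᵥ u) := by
        rw [smul_smul, ← sub_smul]
        have : 1 / (1 - α) - 1 / (1 - α) * α = 1 := by field_simp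
        rw [this, one_smul]
      calc 1 + (1 / (1 - α)) • vecMulVec u (X *ᵥ u) -
            (vecMulVec u (X *ᵥ u) + (1 / (1 - α)) • α • vecMulVec u (X *ᵥ u))
          = 1 + ((1 / (1 - α)) • vecMulVec u (X *ᵥ u) -
            (1 / (1 - α)) • α • vecMulVec u (X *ᵥ u)) - vecMulVec u (X *ᵥ u) := by abel
        _ = 1 := by rw [this]; abel
    rw [hinv, Matrix.trace_add, Matrix.trace_smul, Matrix.trace_vecMulVec]
    have hβ : (X *ᵥ u) ⬝ᵥ (X *ᵥ u) = u ⬝ᵥ (X * X) *ᵥ u := by
      rw [Matrix.dotProduct_mulVec, ← Matrix.mulVec_transpose, hXh, Matrix.mulVec_mulVec,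
        dotProduct_comm]
    rw [← hβ]
    have h0 : 0 ≤ (X *ᵥ u) ⬝ᵥ (X *ᵥ u) := Finset.sum_nonneg fun i _ => mul_self_nonneg _
    have h2 : 1 / (1 - α) ≤ 2 := by
      rw [div_le_iff₀ hα1]; linarith
    have := mul_le_mul_of_nonneg_right h2 h0
    simp only [smul_eq_mul]
    linarith

/-- Averages of quadratic forms over a Parseval frame. -/
theorem sum_quad {n N : ℕ} (U : Fin N → Fin n → ℝ) (hU : ∑ i, vecMulVec (U i) (U i) = 1)
    (X : Matrix (Fin n) (Fin n) ℝ) : ∑ i, U i ⬝ᵥ X *ᵥ U i = X.trace := by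
  have : X.trace = (X * ∑ i, vecMulVec (U i) (U i)).trace := by rw [hU, Matrix.mul_one]
  rw [this, Matrix.mul_sum, Matrix.trace_sum]
  refine Finset.sum_congr rfl fun i _ => ?_
  rw [Matrix.mul_vecMulVec, Matrix.trace_vecMulVec, dotProduct_comm]

/-- The selection, in matrix form. -/
theorem barrier_matrix {n N : ℕ} (hn : 0 < n) (hN : 0 < N) (w : Fin n → ℝ) (hw : ∀ i, 0 < w i)
    (U : Fin N → Fin n → ℝ) (hU : ∑ i, vecMulVec (U i) (U i) = 1)
    (k : ℕ) (hk : 2 * k ≤ N) (S M : ℝ) (hS : ∑ i, 1 / w i ≤ S) (hM : ∀ i, 1 / w i ≤ M) :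
    ∀ t ≤ k, ∃ J : Finset (Fin N), J.card = t ∧
      ((8 * S / N + 8 * t * M / N) • Matrix.diagonal w - ∑ j ∈ J, vecMulVec (U j) (U j)).PosDef ∧
      (((8 * S / N + 8 * t * M / N) • Matrix.diagonal w -
        ∑ j ∈ J, vecMulVec (U j) (U j))⁻¹).trace ≤ N / 8 := by
  have hN' : (0 : ℝ) < N := by exact_mod_cast hN
  have hM0 : 0 < M := lt_of_lt_of_le (one_div_pos.mpr (hw ⟨0, hn⟩)) (hM _)
  have hS0 : 0 < S := by
    refine lt_of_lt_of_le ?_ hS
    exact Finset.sum_pos (fun i _ => one_div_pos.mpr (hw i)) ⟨⟨0, hn⟩, Finset.mem_univ _⟩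
  have hD : (Matrix.diagonal w).PosDef := Matrix.posDef_diagonal_iff.mpr hw
  intro t
  induction t with
  | zero =>
    intro _
    refine ⟨∅, rfl, ?_, ?_⟩
    · have : 0 < 8 * S / N + 8 * ((0 : ℕ) : ℝ) * M / N := by simp; positivity
      rw [Finset.sum_empty, sub_zero]
      exact hD.smul this
    · rw [Finset.sum_empty, sub_zero]
      have : (8 * S / N + 8 * ((0 : ℕ) : ℝ) * M / N) = 8 * S / N := by simp
      rw [this]
      have hc : 0 < 8 * S / N := by positivity
      have hinv : ((8 * S / N) • Matrix.diagonal w)⁻¹ =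
          Matrix.diagonal (fun i => (N / (8 * S)) * (1 / w i)) := by
        apply Matrix.inv_eq_right_inv
        rw [Matrix.smul_mul, Matrix.diagonal_mul_diagonal, ← Matrix.diagonal_smul]
        rw [← Matrix.diagonal_one]
        congr 1
        funext i
        have := (hw i).ne'
        simp only [Pi.smul_apply, smul_eq_mul]
        field_simp
      rw [hinv, Matrix.trace_diagonal, ← Finset.mul_sum]
      calc (N / (8 * S)) * ∑ i, 1 / w i ≤ (N / (8 * S)) * S := by
            apply mul_le_mul_of_nonneg_left hS; positivity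
        _ = N / 8 := by field_simp
  | succ t ih =>
    intro ht
    obtain ⟨J, hJ, hpos, htr⟩ := ih (by omega)
    set P := (8 * S / N + 8 * t * M / N) • Matrix.diagonal w -
      ∑ j ∈ J, vecMulVec (U j) (U j) with hP
    set δ : ℝ := 8 * M / N with hδ
    have hδ0 : 0 < δ := by positivity
    have hQ : (P + δ • Matrix.diagonal w).PosDef := hpos.add (hD.smul hδ0)
    have h1 := trace_inv_sub hpos hD hδ0
    set Q := P + δ • Matrix.diagonal w with hQdef
    set X := Q⁻¹ with hX
    have hXh : Xᴴ = X := hQ.inv.isHermitian.eq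
    have hXT : Xᵀ = X := by
      rwa [Matrix.conjTranspose_eq_transpose_of_trivial] at hXh
    -- trace comparison
    have h2 : (1 / M) * (X * X).trace ≤ (X * Matrix.diagonal w * X).trace := by
      have hps : (Matrix.diagonal (fun i => w i - 1 / M)).PosSemidef := by
        rw [Matrix.posSemidef_diagonal_iff]
        intro i
        have := hM i
        have h3 : 1 / M ≤ w i := by
          rw [div_le_iff₀ hM0]
          have := (div_le_iff₀ (hw i)).mp this
          linarith
        linarith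
      have h3 := (hps.conjTranspose_mul_mul_same X).trace_nonneg
      rw [hXh] at h3
      have h4 : Matrix.diagonal (fun i => w i - 1 / M) =
          Matrix.diagonal w - (1 / M) • (1 : Matrix (Fin n) (Fin n) ℝ) := by
        rw [← Matrix.diagonal_one, ← Matrix.diagonal_smul, Matrix.diagonal_sub]
        congr 1
        funext i
        simp
      rw [h4, Matrix.mul_sub, Matrix.sub_mul, Matrix.trace_sub, Matrix.mul_smul,
        Matrix.mul_one, Matrix.smul_mul, Matrix.trace_smul] at h3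
      simp only [smul_eq_mul] at h3
      linarith
    have h3 : (8 / N) * (X * X).trace ≤ (P⁻¹).trace - X.trace := by
      calc (8 / N) * (X * X).trace = δ * ((1 / M) * (X * X).trace) := by
            rw [hδ]; field_simp
        _ ≤ δ * (X * Matrix.diagonal w * X).trace := mul_le_mul_of_nonneg_left h2 hδ0.le
        _ ≤ _ := h1
    have hXX : (X * X).PosDef := by
      have h := hQ.inv
      have h5 : (X * X) = Xᴴ * 1 * X := by rw [hXh, Matrix.mul_one]
      rw [h5]
      apply Matrix.PosDef.conjTranspose_mul_mul_same Matrix.PosDef.one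
      have hu : IsUnit X := h.isUnit
      exact Matrix.mulVec_injective_of_isUnit hu
    have hT0 : 0 < (X * X).trace := by
      have : Nonempty (Fin n) := ⟨⟨0, hn⟩⟩
      exact hXX.trace_pos
    have hsum1 : ∑ i, U i ⬝ᵥ X *ᵥ U i = X.trace := sum_quad U hU X
    have hsum2 : ∑ i, U i ⬝ᵥ (X * X) *ᵥ U i = (X * X).trace := sum_quad U hU (X * X)
    have hXtr : X.trace ≤ N / 8 := by
      have : 0 ≤ (8 / N) * (X * X).trace := by positivity
      linarith
    -- choice of the next index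
    have hcard : (N : ℝ) / 2 ≤ (Jᶜ : Finset (Fin N)).card := by
      rw [Finset.card_compl, Fintype.card_fin, hJ]
      have : t ≤ N := by omega
      rw [Nat.cast_sub this]
      have h6 : (2 * t : ℝ) ≤ N := by
        have : 2 * t ≤ N := by omega
        exact_mod_cast this
      linarith
    have hne : (Jᶜ : Finset (Fin N)).Nonempty := by
      rw [← Finset.card_pos]
      have : (0 : ℝ) < (Jᶜ : Finset (Fin N)).card := lt_of_lt_of_le (by positivity) hcard
      exact_mod_cast this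
    have hαnn : ∀ i, 0 ≤ U i ⬝ᵥ X *ᵥ U i := fun i => by
      have := hQ.inv.posSemidef.dotProduct_mulVec_nonneg (U i)
      simpa using this
    have hβnn : ∀ i, 0 ≤ U i ⬝ᵥ (X * X) *ᵥ U i := fun i => by
      have := hXX.posSemidef.dotProduct_mulVec_nonneg (U i)
      simpa using this
    obtain ⟨j, hj, hjle⟩ : ∃ j ∈ (Jᶜ : Finset (Fin N)),
        2 * (U j ⬝ᵥ X *ᵥ U j) + N / (4 * (X * X).trace) * (U j ⬝ᵥ (X * X) *ᵥ U j) ≤ 1 := by
      apply Finset.exists_le_of_sum_le hne
      calc ∑ i ∈ Jᶜ, (2 * (U i ⬝ᵥ X *ᵥ U i) +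
            N / (4 * (X * X).trace) * (U i ⬝ᵥ (X * X) *ᵥ U i))
          ≤ ∑ i, (2 * (U i ⬝ᵥ X *ᵥ U i) +
            N / (4 * (X * X).trace) * (U i ⬝ᵥ (X * X) *ᵥ U i)) := by
            apply Finset.sum_le_sum_of_subset_of_nonneg (Finset.subset_univ _)
            intro i _ _
            have := hαnn i
            have := hβnn i
            positivity
        _ = 2 * X.trace + N / (4 * (X * X).trace) * (X * X).trace := by
            rw [Finset.sum_add_distrib, ← Finset.mul_sum, ← Finset.mul_sum, hsum1, hsum2]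
        _ = 2 * X.trace + N / 4 := by
            congr 1
            field_simp
        _ ≤ N / 2 := by linarith
        _ ≤ (Jᶜ : Finset (Fin N)).card := hcard
        _ = ∑ i ∈ (Jᶜ : Finset (Fin N)), (1 : ℝ) := by simp
    have hjJ : j ∉ J := Finset.mem_compl.mp hj
    have hα : U j ⬝ᵥ X *ᵥ U j ≤ 1 / 2 := by
      have := hβnn j
      have h7 : 0 ≤ N / (4 * (X * X).trace) * (U j ⬝ᵥ (X * X) *ᵥ U j) := by positivity
      linarith
    have hβ : 2 * (U j ⬝ᵥ (X * X) *ᵥ U j) ≤ (8 / N) * (X * X).trace := by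
      have h7 : N / (4 * (X * X).trace) * (U j ⬝ᵥ (X * X) *ᵥ U j) ≤ 1 := by
        have := hαnn j
        linarith
      rw [div_mul_eq_mul_div, div_le_one (by positivity)] at h7
      rw [div_mul_eq_mul_div, le_div_iff₀ hN']
      nlinarith
    obtain ⟨hd1, hd2⟩ := downdate hQ (U j) hα
    have hnew : (8 * S / N + 8 * ((t + 1 : ℕ) : ℝ) * M / N) • Matrix.diagonal w -
        ∑ i ∈ insert j J, vecMulVec (U i) (U i) = Q - vecMulVec (U j) (U j) := by
      rw [Finset.sum_insert hjJ, hQdef, hP, hδ]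
      have : (8 * S / N + 8 * ((t + 1 : ℕ) : ℝ) * M / N) =
          (8 * S / N + 8 * t * M / N) + 8 * M / N := by push_cast; ring
      rw [this, add_smul]
      abel
    refine ⟨insert j J, ?_, ?_, ?_⟩
    · rw [Finset.card_insert_of_notMem hjJ, hJ]
    · rw [hnew]; exact hd1
    · rw [hnew]
      calc ((Q - vecMulVec (U j) (U j))⁻¹).trace
          ≤ X.trace + 2 * (U j ⬝ᵥ (X * X) *ᵥ U j) := hd2
        _ ≤ X.trace + (8 / N) * (X * X).trace := by linarith
        _ ≤ (P⁻¹).trace := by linarith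
        _ ≤ N / 8 := htr

/-- TT-C. -/
theorem barrier {n N : ℕ} (f : OrthonormalBasis (Fin n) ℝ (EuclideanSpace ℝ (Fin n)))
    (w : Fin n → ℝ) (hw : ∀ i, 0 < w i) (u : Fin N → EuclideanSpace ℝ (Fin n))
    (hu : ∀ x : EuclideanSpace ℝ (Fin n), ∑ i, inner ℝ (u i) x • u i = x)
    (k : ℕ) (hk : 2 * k ≤ N) (S M : ℝ) (hS : ∑ i, 1 / w i ≤ S) (hM : ∀ i, 1 / w i ≤ M) :
    ∃ J : Finset (Fin N), J.card = k ∧ ∀ z : EuclideanSpace ℝ (Fin n),
      ∑ j ∈ J, (inner ℝ (u j) z) ^ 2 ≤
        (8 * S / N + 8 * k * M / N) * ∑ i, w i * (inner ℝ (f i) z) ^ 2 := by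
  rcases Nat.eq_zero_or_pos n with rfl | hn
  · obtain ⟨J, _, hJ⟩ := Finset.exists_subset_card_eq (s := (Finset.univ : Finset (Fin N)))
      (n := k) (by rw [Finset.card_univ, Fintype.card_fin]; omega)
    refine ⟨J, hJ, fun z => ?_⟩
    have hz : z = 0 := Subsingleton.elim _ _
    subst hz
    simp
  rcases Nat.eq_zero_or_pos N with rfl | hN
  · have hk0 : k = 0 := by omega
    subst hk0
    refine ⟨∅, rfl, fun z => ?_⟩
    simp
  set U : Fin N → Fin n → ℝ := fun i a => inner ℝ (f a) (u i) with hUdef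
  have hU : ∑ i, vecMulVec (U i) (U i) = 1 := by
    ext a b
    rw [Matrix.sum_apply]
    have h1 := hu (f b)
    have h2 := congrArg (fun x => inner ℝ (f a) x) h1
    simp only [inner_sum, inner_smul_right] at h2
    have h3 : inner ℝ (f a) (f b) = (1 : Matrix (Fin n) (Fin n) ℝ) a b := by
      rw [orthonormal_iff_ite.mp f.orthonormal a b, Matrix.one_apply]
    rw [h3] at h2
    rw [← h2]
    refine Finset.sum_congr rfl fun i _ => ?_
    simp only [vecMulVec_apply, hUdef]
    rw [real_inner_comm (u i) (f b)]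
    ring
  obtain ⟨J, hJ, hpos, -⟩ := barrier_matrix hn hN w hw U hU k hk S M hS hM k le_rfl
  refine ⟨J, hJ, fun z => ?_⟩
  set c : Fin n → ℝ := fun a => inner ℝ (f a) z with hc
  have h1 := hpos.posSemidef.dotProduct_mulVec_nonneg c
  simp only [star_trivial] at h1
  rw [Matrix.sub_mulVec, dotProduct_sub, Matrix.smul_mulVec, dotProduct_smul,
    Matrix.sum_mulVec, dotProduct_sum] at h1
  have h2 : ∀ j, c ⬝ᵥ vecMulVec (U j) (U j) *ᵥ c = (inner ℝ (u j) z) ^ 2 := by
    intro j
    rw [Matrix.vecMulVec_mulVec, dotProduct_smul]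
    have h3 : U j ⬝ᵥ c = inner ℝ (u j) z := by
      rw [← f.sum_inner_mul_inner (u j) z, dotProduct]
      refine Finset.sum_congr rfl fun a _ => ?_
      simp only [hUdef, hc]
      rw [real_inner_comm (u j) (f a)]
    rw [dotProduct_comm c, h3]
    simp [sq]
  have h4 : c ⬝ᵥ Matrix.diagonal w *ᵥ c = ∑ i, w i * (inner ℝ (f i) z) ^ 2 := by
    rw [dotProduct]
    refine Finset.sum_congr rfl fun a _ => ?_
    rw [Matrix.mulVec_diagonal]
    simp only [hc]
    ring
  rw [h4, Finset.sum_congr rfl fun j _ => h2 j] at h1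
  simp only [smul_eq_mul] at h1
  linarith

end Pool.Agent.TT
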