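import Pool.Agent.Helper88.BM.Svd

/-!
# Mixing a Parseval frame of `n + k` vectors into `n` vectors
-/

namespace Pool.Agent.TT

open Matrix Module

open Pool.Agent.BM (svd sum_coord_mul sum_coord_mul')

/-- The kernel of a Parseval frame. -/
theorem exists_kernel {n k : ℕ} (u : Fin (n + k) → EuclideanSpace ℝ (Fin n))
    (hP : ∀ x : EuclideanSpace ℝ (Fin n), ∑ i, inner ℝ (u i) x • u i = x) :
    ∃ ψ : Fin k → Fin (n + k) → ℝ,
      (∀ l m, ∑ i, ψ l i * ψ m i = if l = m then 1 else 0) ∧
      (∀ l, ∑ i, ψ l i • u i = 0) ∧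
      (∀ i, ∑ l, ψ l i ^ 2 = 1 - ‖u i‖ ^ 2) := by
  -- the analysis operator
  let R : EuclideanSpace ℝ (Fin n) →ₗ[ℝ] EuclideanSpace ℝ (Fin (n + k)) :=
    { toFun := fun x => WithLp.toLp 2 fun i => inner ℝ (u i) x
      map_add' := fun x y => by ext i; simp [inner_add_right]
      map_smul' := fun c x => by ext i; simp [inner_smul_right] }
  have hRapp : ∀ x i, R x i = inner ℝ (u i) x := fun x i => rfl
  have hRinner : ∀ x y, inner ℝ (R x) (R y) = inner ℝ x y := by
    intro x y
    conv_rhs => rw [← hP x]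
    rw [sum_inner, PiLp.inner_apply]
    refine Finset.sum_congr rfl fun i _ => ?_
    rw [hRapp, hRapp, inner_smul_left]
    simp [mul_comm]
  have hRinj : Function.Injective R := by
    intro x y hxy
    have h1 : R (x - y) = 0 := by rw [map_sub, hxy, sub_self]
    have h2 := hRinner (x - y) (x - y)
    rw [h1, inner_zero_left] at h2
    exact sub_eq_zero.mp (inner_self_eq_zero.mp h2.symm)
  set K : Submodule ℝ (EuclideanSpace ℝ (Fin (n + k))) := (LinearMap.range R)ᗮ with hK
  have hfr : finrank ℝ K = k := by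
    have h1 : finrank ℝ (LinearMap.range R) + finrank ℝ K =
        finrank ℝ (EuclideanSpace ℝ (Fin (n + k))) :=
      Submodule.finrank_add_finrank_orthogonal (LinearMap.range R)
    rw [LinearMap.finrank_range_of_inj hRinj, finrank_euclideanSpace_fin,
      finrank_euclideanSpace_fin] at h1
    omega
  let b : OrthonormalBasis (Fin k) ℝ K := (stdOrthonormalBasis ℝ K).reindex (finCongr hfr)
  refine ⟨fun l i => (b l : EuclideanSpace ℝ (Fin (n + k))) i, ?_, ?_, ?_⟩
  · intro l m
    have h := orthonormal_iff_ite.mp b.orthonormal l m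
    rw [Submodule.coe_inner, PiLp.inner_apply] at h
    rw [← h]
    refine Finset.sum_congr rfl fun i _ => ?_
    rw [RCLike.inner_apply, conj_trivial, mul_comm]
  · intro l
    apply ext_inner_right ℝ
    intro y
    rw [inner_zero_left, sum_inner]
    have h1 : inner ℝ (R y) (b l : EuclideanSpace ℝ (Fin (n + k))) = 0 :=
      (b l).2 (R y) ⟨y, rfl⟩
    rw [PiLp.inner_apply] at h1
    rw [← h1]
    refine Finset.sum_congr rfl fun i _ => ?_
    rw [hRapp, inner_smul_left]
    simp
  · intro i
    have hmem : EuclideanSpace.single i (1 : ℝ) - R (u i) ∈ K := by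
      rw [hK, Submodule.mem_orthogonal]
      rintro _ ⟨y, rfl⟩
      rw [inner_sub_right, hRinner, EuclideanSpace.inner_single_right]
      simp [hRapp, real_inner_comm]
    have h1 := b.sum_sq_norm_inner_right ⟨_, hmem⟩
    have h2 : ∀ l, inner ℝ (b l) (⟨_, hmem⟩ : K) = (b l : EuclideanSpace ℝ (Fin (n + k))) i := by
      intro l
      rw [Submodule.coe_inner]
      simp only
      rw [inner_sub_right, EuclideanSpace.inner_single_right]
      have h3 : inner ℝ (R (u i)) (b l : EuclideanSpace ℝ (Fin (n + k))) = 0 :=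
        (b l).2 (R (u i)) ⟨_, rfl⟩
      rw [real_inner_comm, h3]
      simp
    have h4 : ‖(⟨_, hmem⟩ : K)‖ ^ 2 = 1 - ‖u i‖ ^ 2 := by
      rw [Submodule.coe_norm]
      simp only
      rw [norm_sub_sq_real, EuclideanSpace.inner_single_left, hRapp, PiLp.norm_single]
      have h5 : ‖R (u i)‖ ^ 2 = ‖u i‖ ^ 2 := by
        rw [← real_inner_self_eq_norm_sq, hRinner, real_inner_self_eq_norm_sq]
      rw [h5, real_inner_self_eq_norm_sq]
      simp
      ring
    rw [← h4, ← h1]
    refine Finset.sum_congr rfl fun l _ => ?_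
    rw [h2 l]
    simp

/-- The kernel of a Parseval frame in a basis adapted to `k` coordinates. -/
theorem exists_kernel_svd {n k : ℕ} (u : Fin (n + k) → EuclideanSpace ℝ (Fin n))
    (hP : ∀ x : EuclideanSpace ℝ (Fin n), ∑ i, inner ℝ (u i) x • u i = x)
    (e : Fin k → Fin (n + k)) :
    ∃ (φ : Fin k → Fin (n + k) → ℝ) (o : OrthonormalBasis (Fin k) ℝ (EuclideanSpace ℝ (Fin k)))
      (s : Fin k → ℝ),
      (∀ l m, ∑ i, φ l i * φ m i = if l = m then 1 else 0) ∧
      (∀ l, ∑ i, φ l i • u i = 0) ∧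
      (∀ i, ∑ l, φ l i ^ 2 = 1 - ‖u i‖ ^ 2) ∧
      (∀ l, 0 ≤ s l) ∧ (∀ l m, φ l (e m) = s l * o l m) := by
  obtain ⟨ψ, h1, h2, h3⟩ := exists_kernel u hP
  obtain ⟨v, w, s, hs, hx⟩ := svd (fun l : Fin k => WithLp.toLp 2 fun m => ψ l (e m))
  refine ⟨fun j i => ∑ l, v j l * ψ l i, w, s, ?_, ?_, ?_, hs, ?_⟩
  · intro j m
    calc ∑ i, (∑ l, v j l * ψ l i) * (∑ l, v m l * ψ l i)
        = ∑ l, ∑ l', v j l * v m l' * ∑ i, ψ l i * ψ l' i := by
          simp_rw [Finset.sum_mul_sum, Finset.mul_sum]
          rw [Finset.sum_comm]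
          refine Finset.sum_congr rfl fun l _ => ?_
          rw [Finset.sum_comm]
          refine Finset.sum_congr rfl fun l' _ => Finset.sum_congr rfl fun i _ => by ring
      _ = ∑ l, v j l * v m l := by
          refine Finset.sum_congr rfl fun l _ => ?_
          simp_rw [h1]
          simp
      _ = _ := sum_coord_mul v j m
  · intro j
    calc ∑ i, (∑ l, v j l * ψ l i) • u i = ∑ l, v j l • ∑ i, ψ l i • u i := by
          simp_rw [Finset.sum_smul, Finset.smul_sum, smul_smul]
          rw [Finset.sum_comm]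
      _ = 0 := by simp [h2]
  · intro i
    rw [← h3 i]
    calc ∑ j, (∑ l, v j l * ψ l i) ^ 2
        = ∑ l, ∑ l', (∑ j, v j l * v j l') * (ψ l i * ψ l' i) := by
          simp_rw [sq, Finset.sum_mul_sum, Finset.sum_mul]
          rw [Finset.sum_comm]
          refine Finset.sum_congr rfl fun l _ => ?_
          rw [Finset.sum_comm]
          refine Finset.sum_congr rfl fun l' _ => Finset.sum_congr rfl fun j _ => by ring
      _ = ∑ l, ψ l i ^ 2 := by
          refine Finset.sum_congr rfl fun l _ => ?_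
          simp_rw [sum_coord_mul' v]
          simp [sq]
  · intro j m
    have hxm : ∀ l, ψ l (e m) = ∑ j', (s j' * v j' l) * w j' m := by
      intro l
      have := congrArg (fun y : EuclideanSpace ℝ (Fin k) => y m) (hx l)
      simpa using this
    calc ∑ l, v j l * ψ l (e m) = ∑ l, v j l * ∑ j', (s j' * v j' l) * w j' m := by
          simp_rw [hxm]
      _ = ∑ j', s j' * w j' m * ∑ l, v j l * v j' l := by
          simp_rw [Finset.mul_sum]
          rw [Finset.sum_comm]
          refine Finset.sum_congr rfl fun j' _ => Finset.sum_congr rfl fun l _ => by ring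
      _ = s j * w j m := by
          simp_rw [sum_coord_mul v]
          simp

/-- Absolutely convex combinations. -/
theorem abs_combo_mem {E : Type*} [AddCommGroup E] [Module ℝ E] {B : Set E}
    (hconv : Convex ℝ B) (hsymm : ∀ z ∈ B, -z ∈ B) (h0 : (0 : E) ∈ B) {k : ℕ}
    (θ : Fin k → ℝ) (v : Fin k → E) (hv : ∀ m, v m ∈ B) (hθ : ∑ m, |θ m| ≤ 1) :
    ∑ m, θ m • v m ∈ B := by
  have h1 : ∑ o : Option (Fin k), (Option.elim o (1 - ∑ m, |θ m|) fun m => |θ m|) •
      (Option.elim o (0 : E) fun m => (if 0 ≤ θ m then v m else -v m)) ∈ B := by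
    apply hconv.sum_mem
    · intro o _
      cases o with
      | none => simp; exact hθ
      | some m => exact abs_nonneg _
    · rw [Fintype.sum_option]
      simp
    · intro o _
      cases o with
      | none => exact h0
      | some m =>
        simp only [Option.elim]
        split_ifs
        · exact hv m
        · exact hsymm _ (hv m)
  rw [Fintype.sum_option] at h1
  simp only [Option.elim, smul_zero, zero_add] at h1
  convert h1 using 2 with m
  split_ifs with h
  · rw [abs_of_nonneg h]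
  · rw [abs_of_neg (not_le.mp h), smul_neg, neg_smul, neg_neg]

/-- TT-D. -/
theorem mixing {n k : ℕ} {B : Set (EuclideanSpace ℝ (Fin n))} (hconv : Convex ℝ B)
    (hsymm : ∀ z ∈ B, -z ∈ B) (u : Fin (n + k) → EuclideanSpace ℝ (Fin n))
    (hu : ∀ i, u i ∈ B)
    (hP : ∀ x : EuclideanSpace ℝ (Fin n), ∑ i, inner ℝ (u i) x • u i = x)
    (p : ℝ) (hp : ∀ i, 1 - ‖u i‖ ^ 2 ≤ p) (κ : ℝ) (hκ0 : 0 < κ) (hκ1 : κ ≤ 1)
    (hκ : κ ^ 2 * k * p ≤ 1) (J : Finset (Fin (n + k))) (hJ : J.card = k) :
    ∃ y : Fin n → EuclideanSpace ℝ (Fin n), (∀ i, y i ∈ B) ∧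
      ∀ z : EuclideanSpace ℝ (Fin n), ∃ c : Fin n → ℝ, z = ∑ i, c i • y i ∧
        ∑ i, (c i) ^ 2 ≤ 4 * (‖z‖ ^ 2 + (∑ j ∈ J, (inner ℝ (u j) z) ^ 2) / κ ^ 2) := by
  -- enumerate `J` and its complement
  have hJc : (Jᶜ : Finset (Fin (n + k))).card = n := by
    rw [Finset.card_compl, Fintype.card_fin, hJ]; omega
  let e1 : Fin k ≃ {x // x ∈ J} := (finCongr hJ.symm).trans J.equivFin.symm
  let e2 : Fin n ≃ {x // x ∈ (Jᶜ : Finset (Fin (n + k)))} :=
    (finCongr hJc.symm).trans (Jᶜ : Finset (Fin (n + k))).equivFin.symm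
  have hsplit : ∀ {M : Type} [AddCommMonoid M] (g : Fin (n + k) → M),
      ∑ i, g i = ∑ i, g (e2 i) + ∑ m, g (e1 m) := by
    intro M _ g
    have hA : ∑ m, g (e1 m) = ∑ j ∈ J, g j := by
      rw [← Finset.sum_coe_sort J]
      exact Fintype.sum_equiv e1 _ _ fun _ => rfl
    have hB : ∑ i, g (e2 i) = ∑ j ∈ Jᶜ, g j := by
      rw [← Finset.sum_coe_sort (Jᶜ : Finset (Fin (n + k)))]
      exact Fintype.sum_equiv e2 _ _ fun _ => rfl
    rw [hA, hB, Finset.sum_compl_add_sum]
  have hJsum : ∀ g : Fin (n + k) → ℝ, ∑ m, g (e1 m) = ∑ j ∈ J, g j := by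
    intro g
    rw [← Finset.sum_coe_sort J]
    exact Fintype.sum_equiv e1 _ _ fun _ => rfl
  obtain ⟨φ, o, s, hφ1, hφ2, hφ3, hs0, hφs⟩ :=
    exists_kernel_svd u hP (fun m => (e1 m : Fin (n + k)))
  have hs1 : ∀ l, s l ≤ 1 := by
    intro l
    have h1 : ∑ m, (φ l (e1 m)) ^ 2 ≤ 1 := by
      have h2 := hφ1 l l
      rw [if_pos rfl, hsplit] at h2
      have h3 : 0 ≤ ∑ i, φ l (e2 i) * φ l (e2 i) :=
        Finset.sum_nonneg fun i _ => mul_self_nonneg _
      simp_rw [sq]
      linarith
    have h2 : ∑ m, (φ l (e1 m)) ^ 2 = s l ^ 2 := by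
      calc ∑ m, (φ l (e1 m)) ^ 2 = s l ^ 2 * ∑ m, o l m * o l m := by
            rw [Finset.mul_sum]
            refine Finset.sum_congr rfl fun m _ => ?_
            rw [hφs]; ring
        _ = s l ^ 2 := by rw [sum_coord_mul o l l]; simp
    rw [h2] at h1
    nlinarith [hs0 l]
  -- the mixing coefficients
  set Θ : Fin n → Fin k → ℝ := fun i m => -κ * ∑ l, φ l (e2 i) * o l m with hΘ
  have hΘ1 : ∀ i, ∑ m, |Θ i m| ≤ 1 := by
    intro i
    have h1 : ∑ m, (Θ i m) ^ 2 = κ ^ 2 * (1 - ‖u (e2 i)‖ ^ 2) := by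
      calc ∑ m, (Θ i m) ^ 2
          = κ ^ 2 * ∑ l, ∑ l', (φ l (e2 i) * φ l' (e2 i)) * ∑ m, o l m * o l' m := by
            simp_rw [hΘ, mul_pow, neg_sq, ← Finset.mul_sum]
            congr 1
            simp_rw [sq, Finset.sum_mul_sum, Finset.mul_sum]
            rw [Finset.sum_comm]
            refine Finset.sum_congr rfl fun l _ => ?_
            rw [Finset.sum_comm]
            refine Finset.sum_congr rfl fun l' _ => Finset.sum_congr rfl fun j _ => by ring
        _ = κ ^ 2 * ∑ l, φ l (e2 i) ^ 2 := by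
            congr 1
            refine Finset.sum_congr rfl fun l _ => ?_
            simp_rw [sum_coord_mul o]
            simp [sq]
        _ = _ := by rw [hφ3]
    have h2 : (∑ m, |Θ i m|) ^ 2 ≤ k * ∑ m, |Θ i m| ^ 2 := by
      have := sq_sum_le_card_mul_sum_sq (s := (Finset.univ : Finset (Fin k)))
        (f := fun m => |Θ i m|)
      simpa using this
    simp_rw [sq_abs] at h2
    rw [h1] at h2
    have h3 : (k : ℝ) * (κ ^ 2 * (1 - ‖u (e2 i)‖ ^ 2)) ≤ 1 := by
      calc (k : ℝ) * (κ ^ 2 * (1 - ‖u (e2 i)‖ ^ 2)) ≤ (k : ℝ) * (κ ^ 2 * p) := by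
            have := hp (e2 i)
            gcongr
        _ = κ ^ 2 * k * p := by ring
        _ ≤ 1 := hκ
    have h4 : 0 ≤ ∑ m, |Θ i m| := Finset.sum_nonneg fun _ _ => abs_nonneg _
    nlinarith
  set y : Fin n → EuclideanSpace ℝ (Fin n) := fun i =>
    (1 / 2 : ℝ) • u (e2 i) + (1 / 2 : ℝ) • ∑ m, Θ i m • u (e1 m) with hy
  refine ⟨y, ?_, ?_⟩
  · intro i
    have h0 : (0 : EuclideanSpace ℝ (Fin n)) ∈ B := by
      have := hconv (hu (e2 i)) (hsymm _ (hu (e2 i))) (by norm_num : (0 : ℝ) ≤ 1 / 2)
        (by norm_num : (0 : ℝ) ≤ 1 / 2) (by norm_num)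
      simpa using this
    exact hconv (hu _) (abs_combo_mem hconv hsymm h0 (Θ i) _ (fun m => hu _) (hΘ1 i))
      (by norm_num) (by norm_num) (by norm_num)
  · intro z
    set a : Fin (n + k) → ℝ := fun i => inner ℝ (u i) z with ha
    set α : Fin k → ℝ := fun l => ∑ m, o l m * a (e1 m) with hα
    set den : Fin k → ℝ := fun l => s l + κ * (1 - s l ^ 2) with hden
    have hdenκ : ∀ l, κ ≤ den l := by
      intro l
      have h1 := hs0 l
      have h2 := hs1 l
      have h3 : κ * s l ≤ 1 := by nlinarith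
      have h4 : 0 ≤ s l * (1 - κ * s l) := mul_nonneg h1 (by linarith)
      simp only [hden]
      nlinarith
    set x : Fin k → ℝ := fun l => -(α l * (1 - κ * s l)) / den l with hx
    have hxden : ∀ l, x l * den l = -(α l * (1 - κ * s l)) := by
      intro l
      have : den l ≠ 0 := ne_of_gt (lt_of_lt_of_le hκ0 (hdenκ l))
      simp only [hx]
      field_simp
    set g : Fin (n + k) → ℝ := fun i => a i + ∑ l, x l * φ l i with hg
    have haφ : ∀ l, ∑ i, φ l i * a i = 0 := by
      intro l
      have h1 := congrArg (fun v => inner ℝ v z) (hφ2 l)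
      simp only [sum_inner, inner_smul_left, inner_zero_left] at h1
      simpa [ha] using h1
    have hgφ : ∀ l, ∑ i, φ l i * g i = x l := by
      intro l
      calc ∑ i, φ l i * g i = ∑ i, φ l i * a i + ∑ l', x l' * ∑ i, φ l i * φ l' i := by
            simp_rw [hg, mul_add, Finset.sum_add_distrib, Finset.mul_sum]
            congr 1
            rw [Finset.sum_comm]
            refine Finset.sum_congr rfl fun l' _ => Finset.sum_congr rfl fun i _ => by ring
        _ = x l := by
            rw [haφ, zero_add]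
            simp_rw [hφ1]
            simp
    have hgo : ∀ l, ∑ m, o l m * g (e1 m) = α l + x l * s l := by
      intro l
      calc ∑ m, o l m * g (e1 m)
          = ∑ m, o l m * a (e1 m) + ∑ l', x l' * s l' * ∑ m, o l m * o l' m := by
            simp_rw [hg, mul_add, Finset.sum_add_distrib, Finset.mul_sum]
            congr 1
            rw [Finset.sum_comm]
            refine Finset.sum_congr rfl fun l' _ => Finset.sum_congr rfl fun i _ => ?_
            rw [hφs]
            ring
        _ = α l + x l * s l := by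
            simp_rw [sum_coord_mul o]
            simp [hα]
    have hβ : ∀ l, ∑ i, φ l (e2 i) * g (e2 i) = x l * (1 - s l ^ 2) - s l * α l := by
      intro l
      have h1 := hgφ l
      rw [hsplit] at h1
      have h2 : ∑ m, φ l (e1 m) * g (e1 m) = s l * (α l + x l * s l) := by
        rw [← hgo l, Finset.mul_sum]
        refine Finset.sum_congr rfl fun m _ => ?_
        rw [hφs]; ring
      rw [h2] at h1
      linarith
    have hgm : ∀ m, g (e1 m) = ∑ i, g (e2 i) * Θ i m := by
      intro m
      have h1 : g (e1 m) = ∑ l, o l m * ∑ m', o l m' * g (e1 m') := by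
        calc g (e1 m) = ∑ m', (∑ l, o l m * o l m') * g (e1 m') := by
              simp_rw [sum_coord_mul' o]
              simp
          _ = _ := by
              simp_rw [Finset.sum_mul, Finset.mul_sum]
              rw [Finset.sum_comm]
              refine Finset.sum_congr rfl fun l _ => Finset.sum_congr rfl fun i _ => by ring
      have h2 : ∑ i, g (e2 i) * Θ i m = ∑ l, o l m * (-κ * ∑ i, φ l (e2 i) * g (e2 i)) := by
        simp_rw [hΘ, Finset.mul_sum]
        rw [Finset.sum_comm]
        refine Finset.sum_congr rfl fun l _ => Finset.sum_congr rfl fun i _ => by ring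
      rw [h1, h2]
      refine Finset.sum_congr rfl fun l _ => ?_
      rw [hgo, hβ]
      congr 1
      have h3 := hxden l
      simp only [hden] at h3
      linarith
    have hgz : ∑ i, g i • u i = z := by
      simp_rw [hg, add_smul, Finset.sum_add_distrib]
      have h1 : ∑ i, (∑ l, x l * φ l i) • u i = 0 := by
        calc ∑ i, (∑ l, x l * φ l i) • u i = ∑ l, x l • ∑ i, φ l i • u i := by
              simp_rw [Finset.sum_smul, Finset.smul_sum, smul_smul]
              rw [Finset.sum_comm]
          _ = 0 := by simp [hφ2]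
      rw [h1, add_zero]
      exact hP z
    refine ⟨fun i => 2 * g (e2 i), ?_, ?_⟩
    · rw [← hgz, hsplit]
      have h1 : ∑ m, g (e1 m) • u (e1 m) = ∑ i, g (e2 i) • ∑ m, Θ i m • u (e1 m) := by
        simp_rw [hgm, Finset.sum_smul, Finset.smul_sum, smul_smul]
        rw [Finset.sum_comm]
      rw [h1, ← Finset.sum_add_distrib]
      refine Finset.sum_congr rfl fun i _ => ?_
      simp only [hy]
      rw [← smul_add (g (e2 i)), ← smul_add (1 / 2 : ℝ), smul_smul]
      congr 1
      ring
    · have hx2 : ∀ l, x l ^ 2 ≤ α l ^ 2 / κ ^ 2 := by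
        intro l
        have hd := hdenκ l
        have hd0 : 0 < den l := lt_of_lt_of_le hκ0 hd
        have h1 := hs0 l
        have h2 := hs1 l
        have h3 : κ * s l ≤ 1 := by nlinarith
        have h4 : 0 ≤ 1 - κ * s l := by linarith
        have h5 : 1 - κ * s l ≤ 1 := by nlinarith
        rw [le_div_iff₀ (by positivity)]
        have h6 : (x l * den l) ^ 2 ≤ α l ^ 2 := by
          rw [hxden, neg_sq, mul_pow]
          have : (1 - κ * s l) ^ 2 ≤ 1 := by nlinarith
          nlinarith [sq_nonneg (α l)]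
        have h7 : κ ^ 2 ≤ den l ^ 2 := by nlinarith
        nlinarith [sq_nonneg (x l)]
      have hα2 : ∑ l, α l ^ 2 = ∑ j ∈ J, (inner ℝ (u j) z) ^ 2 := by
        rw [← hJsum fun j => (inner ℝ (u j) z) ^ 2]
        calc ∑ l, α l ^ 2
            = ∑ m, ∑ m', (∑ l, o l m * o l m') * (a (e1 m) * a (e1 m')) := by
              simp_rw [hα, sq, Finset.sum_mul_sum, Finset.sum_mul]
              rw [Finset.sum_comm]
              refine Finset.sum_congr rfl fun l _ => ?_
              rw [Finset.sum_comm]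
              refine Finset.sum_congr rfl fun l' _ => Finset.sum_congr rfl fun j _ => by ring
          _ = _ := by
              refine Finset.sum_congr rfl fun m _ => ?_
              simp_rw [sum_coord_mul' o]
              simp [sq, ha]
      have hg2 : ∑ i, g i ^ 2 = ‖z‖ ^ 2 + ∑ l, x l ^ 2 := by
        have h1 : ∑ i, g i ^ 2 = ∑ i, a i * g i + ∑ l, x l * ∑ i, φ l i * g i := by
          have : ∀ i, g i ^ 2 = a i * g i + ∑ l, x l * (φ l i * g i) := by
            intro i
            calc g i ^ 2 = (a i + ∑ l, x l * φ l i) * g i := by rw [sq]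
              _ = _ := by
                rw [add_mul, Finset.sum_mul]
                congr 1
                refine Finset.sum_congr rfl fun l _ => by ring
          simp_rw [this, Finset.sum_add_distrib, Finset.mul_sum]
          congr 1
          rw [Finset.sum_comm]
        have h2 : ∑ i, a i * g i = ‖z‖ ^ 2 := by
          have h3 : ∑ i, a i * g i = ∑ i, g i * a i := Finset.sum_congr rfl fun i _ => by ring
          rw [h3, ← real_inner_self_eq_norm_sq]
          conv_rhs => rw [← hgz, sum_inner]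
          refine Finset.sum_congr rfl fun i _ => ?_
          rw [inner_smul_left, hgz]
          simp [ha]
        rw [h1, h2]
        congr 1
        refine Finset.sum_congr rfl fun l _ => ?_
        rw [hgφ]; ring
      have h8 : ∑ i, g (e2 i) ^ 2 ≤ ∑ i, g i ^ 2 := by
        rw [hsplit fun i => g i ^ 2]
        have : 0 ≤ ∑ m, g (e1 m) ^ 2 := Finset.sum_nonneg fun _ _ => sq_nonneg _
        linarith
      calc ∑ i, (2 * g (e2 i)) ^ 2 = 4 * ∑ i, g (e2 i) ^ 2 := by
            rw [Finset.mul_sum]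
            refine Finset.sum_congr rfl fun i _ => by ring
        _ ≤ 4 * (‖z‖ ^ 2 + ∑ l, x l ^ 2) := by rw [← hg2]; linarith
        _ ≤ 4 * (‖z‖ ^ 2 + (∑ j ∈ J, (inner ℝ (u j) z) ^ 2) / κ ^ 2) := by
            have : ∑ l, x l ^ 2 ≤ (∑ j ∈ J, (inner ℝ (u j) z) ^ 2) / κ ^ 2 := by
              rw [← hα2, Finset.sum_div]
              exact Finset.sum_le_sum fun l _ => hx2 l
            linarith

end Pool.Agent.TT
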