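import Mathlib

namespace Pool.Agent.TT

open Matrix Module

namespace Opt

variable {n : ℕ}

/-- The matrix `∑ vᵢ vᵢᵀ`. -/
noncomputable def GG {ι : Type*} [Fintype ι] (v : ι → EuclideanSpace ℝ (Fin n)) :
    Matrix (Fin n) (Fin n) ℝ :=
  ∑ i, vecMulVec (v i) (v i)

/-- The matrix whose columns are the `vᵢ`. -/
def colm {ι : Type*} (v : ι → EuclideanSpace ℝ (Fin n)) : Matrix (Fin n) ι ℝ :=
  Matrix.of fun a i => v i a

theorem GG_eq {ι : Type*} [Fintype ι] (v : ι → EuclideanSpace ℝ (Fin n)) :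
    GG v = colm v * (colm v)ᵀ := by
  ext a b
  simp [GG, colm, Matrix.mul_apply, Matrix.sum_apply, vecMulVec_apply]

theorem gram_eq {ι : Type*} (v : ι → EuclideanSpace ℝ (Fin n)) :
    Matrix.gram ℝ v = (colm v)ᵀ * colm v := by
  ext a b
  simp [Matrix.gram, colm, Matrix.mul_apply, PiLp.inner_apply, mul_comm]

theorem GG_posSemidef {ι : Type*} [Fintype ι] (v : ι → EuclideanSpace ℝ (Fin n)) :
    (GG v).PosSemidef := by
  rw [GG_eq]
  have := Matrix.posSemidef_self_mul_conjTranspose (colm v)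
  rwa [Matrix.conjTranspose_eq_transpose_of_trivial] at this

theorem GG_mulVec {ι : Type*} [Fintype ι] (v : ι → EuclideanSpace ℝ (Fin n))
    (x : EuclideanSpace ℝ (Fin n)) :
    GG v *ᵥ x = ∑ i, (inner ℝ (v i) x) • (v i).ofLp := by
  ext a
  simp only [GG, Matrix.mulVec, dotProduct, Matrix.sum_apply, vecMulVec_apply, Finset.sum_apply,
    Pi.smul_apply, smul_eq_mul, PiLp.inner_apply, Finset.sum_mul]
  rw [Finset.sum_comm]
  refine Finset.sum_congr rfl fun i _ => ?_
  refine Finset.sum_congr rfl fun j _ => ?_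
  simp
  ring

theorem GG_continuous (N : ℕ) :
    Continuous fun v : Fin N → EuclideanSpace ℝ (Fin n) => (GG v).det := by
  unfold GG
  refine Continuous.matrix_det ?_
  refine continuous_finsetSum _ fun i _ => ?_
  refine Continuous.matrix_vecMulVec ?_ ?_
  · exact (PiLp.continuous_ofLp 2 _).comp (continuous_apply i)
  · exact (PiLp.continuous_ofLp 2 _).comp (continuous_apply i)

theorem exists_maxi {B : Set (EuclideanSpace ℝ (Fin n))} (hc : IsCompact B) (hne : B.Nonempty)
    (N : ℕ) : ∃ v : Fin N → EuclideanSpace ℝ (Fin n), (∀ i, v i ∈ B) ∧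
      ∀ w : Fin N → EuclideanSpace ℝ (Fin n), (∀ i, w i ∈ B) → (GG w).det ≤ (GG v).det := by
  obtain ⟨b, hb⟩ := hne
  have hK : IsCompact (Set.univ.pi fun _ : Fin N => B) := isCompact_univ_pi fun _ => hc
  obtain ⟨v, hv, hmax⟩ := hK.exists_isMaxOn ⟨fun _ => b, fun _ _ => hb⟩
    (GG_continuous (n := n) N).continuousOn
  exact ⟨v, fun i => hv i trivial, fun w hw => hmax fun i _ => hw i⟩

theorem GG_posDef_of_span {ι : Type*} [Fintype ι] (v : ι → EuclideanSpace ℝ (Fin n))
    (h : Submodule.span ℝ (Set.range v) = ⊤) : (GG v).PosDef := by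
  rw [(GG_posSemidef v).posDef_iff_det_ne_zero]
  intro hdet
  obtain ⟨x, hx0, hx⟩ := Matrix.exists_mulVec_eq_zero_iff.mpr hdet
  apply hx0
  set y : EuclideanSpace ℝ (Fin n) := WithLp.toLp 2 x with hy
  have hxy : x = y.ofLp := rfl
  have h1 : x ⬝ᵥ (GG v *ᵥ x) = ∑ i, (inner ℝ (v i) y) ^ 2 := by
    rw [hxy, GG_mulVec, dotProduct_sum]
    refine Finset.sum_congr rfl fun i _ => ?_
    rw [dotProduct_smul, smul_eq_mul, sq]
    congr 1
  rw [hx, dotProduct_zero] at h1
  have h2 : ∀ i, inner ℝ (v i) y = 0 := by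
    intro i
    have := (Finset.sum_eq_zero_iff_of_nonneg (fun i _ => sq_nonneg (inner ℝ (v i) y))).1 h1.symm i
      (Finset.mem_univ i)
    exact pow_eq_zero_iff (two_ne_zero) |>.1 this
  have h3 : y ∈ (⊤ : Submodule ℝ (EuclideanSpace ℝ (Fin n))) := trivial
  rw [← h] at h3
  have h4 : ∀ z ∈ Submodule.span ℝ (Set.range v), inner ℝ z y = 0 := by
    intro z hz
    induction hz using Submodule.span_induction with
    | mem z hz => obtain ⟨i, rfl⟩ := hz; exact h2 i
    | zero => simp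
    | add a b _ _ ha hb => rw [inner_add_left, ha, hb, add_zero]
    | smul c a _ ha => rw [inner_smul_left, ha, mul_zero]
  have h5 : y = 0 := inner_self_eq_zero.1 (h4 y h3)
  rw [hxy, h5]
  rfl

theorem exists_posi {B : Set (EuclideanSpace ℝ (Fin n))} (hn : 0 < n)
    (hspan : Submodule.span ℝ B = ⊤) (N : ℕ) (hN : n ≤ N) :
    ∃ v : Fin N → EuclideanSpace ℝ (Fin n), (∀ i, v i ∈ B) ∧ 0 < (GG v).det := by
  obtain ⟨b, hbB, hbs, hbl⟩ := exists_linearIndependent ℝ B
  rw [hspan] at hbs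
  have hfin : Finite b := hbl.finite
  have : Fintype b := Fintype.ofFinite b
  have hcard : Fintype.card b ≤ N := by
    refine le_trans ?_ hN
    have := hbl.fintype_card_le_finrank
    simpa using this
  have hbne : Nonempty b := by
    by_contra hcon
    rw [not_nonempty_iff, Set.isEmpty_coe_sort] at hcon
    rw [hcon, Submodule.span_empty] at hbs
    have : Nontrivial (EuclideanSpace ℝ (Fin n)) := by
      have : Nonempty (Fin n) := ⟨⟨0, hn⟩⟩
      infer_instance
    exact bot_ne_top hbs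
  -- a surjection Fin N → b
  obtain ⟨f, hf⟩ : ∃ f : Fin N → b, Function.Surjective f := by
    have h1 : Fintype.card b ≤ Fintype.card (Fin N) := by simpa using hcard
    obtain ⟨g⟩ := Function.Embedding.nonempty_of_card_le h1
    exact ⟨Function.invFun g, Function.invFun_surjective g.injective⟩
  refine ⟨fun i => (f i : EuclideanSpace ℝ (Fin n)), fun i => hbB (f i).2, ?_⟩
  refine (GG_posDef_of_span _ ?_).det_pos
  rw [← hbs]
  congr 1
  ext z
  constructor
  · rintro ⟨i, rfl⟩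
    exact (f i).2
  · intro hz
    obtain ⟨i, hi⟩ := hf ⟨z, hz⟩
    exact ⟨i, by simp [hi]⟩

theorem det_add_vmv {A : Matrix (Fin n) (Fin n) ℝ} (hA : IsUnit A.det) (c : ℝ)
    (x : Fin n → ℝ) : (A + c • vecMulVec x x).det = A.det * (1 + c * (x ⬝ᵥ (A⁻¹ *ᵥ x))) := by
  have h1 : c • vecMulVec x x = (c • replicateCol Unit x) * replicateRow Unit x := by
    ext a b
    simp [vecMulVec_apply, Matrix.mul_apply]
    ring
  rw [h1, Matrix.det_add_mul _ _ hA]
  congr 1
  rw [Matrix.det_unique]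
  simp only [Matrix.add_apply, Matrix.one_apply_eq, Matrix.mul_smul, Matrix.smul_apply,
    smul_eq_mul]
  congr 2
  rw [Matrix.mul_assoc]
  simp [Matrix.mul_apply, dotProduct, Matrix.mulVec]

theorem GG_succAbove {N : ℕ} (v : Fin (N + 1) → EuclideanSpace ℝ (Fin n)) (i : Fin (N + 1)) :
    GG (fun j => v (i.succAbove j)) = GG v + (-1 : ℝ) • vecMulVec (v i) (v i) := by
  unfold GG
  rw [Fin.sum_univ_succAbove (fun j => vecMulVec (v j).ofLp (v j).ofLp) i]
  simp

theorem sum_dotProduct_inv {ι : Type*} [Fintype ι] (v : ι → EuclideanSpace ℝ (Fin n))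
    (hA : IsUnit (GG v).det) :
    ∑ i, ((v i).ofLp ⬝ᵥ ((GG v)⁻¹ *ᵥ (v i).ofLp)) = n := by
  have h1 : ((GG v)⁻¹ * GG v).trace = n := by
    rw [Matrix.nonsing_inv_mul _ hA, Matrix.trace_one, Fintype.card_fin]
  rw [← h1]
  conv_rhs => rw [show ((GG v)⁻¹ * GG v) = (GG v)⁻¹ * ∑ i, vecMulVec (v i).ofLp (v i).ofLp from rfl]
  rw [Matrix.mul_sum, Matrix.trace_sum]
  refine Finset.sum_congr rfl fun i _ => ?_
  rw [Matrix.mul_vecMulVec, Matrix.trace_vecMulVec, dotProduct_comm]

theorem sum_det_succAbove {N : ℕ} (v : Fin (N + 1) → EuclideanSpace ℝ (Fin n))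
    (hA : IsUnit (GG v).det) :
    ∑ i : Fin (N + 1), (GG (fun j => v (i.succAbove j))).det = ((N + 1 : ℝ) - n) * (GG v).det := by
  have h1 : ∀ i : Fin (N + 1), (GG (fun j => v (i.succAbove j))).det =
      (GG v).det - (GG v).det * ((v i).ofLp ⬝ᵥ ((GG v)⁻¹ *ᵥ (v i).ofLp)) := by
    intro i
    rw [GG_succAbove, det_add_vmv hA]
    ring
  rw [Finset.sum_congr rfl fun i _ => h1 i, Finset.sum_sub_distrib, ← Finset.mul_sum,
    sum_dotProduct_inv v hA]
  simp
  ring

theorem GG_map {ι : Type*} [Fintype ι] (C : Matrix (Fin n) (Fin n) ℝ)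
    (v : ι → EuclideanSpace ℝ (Fin n)) :
    GG (fun i => Matrix.toEuclideanLin C (v i)) = C * GG v * Cᵀ := by
  have h1 : ∀ i, (Matrix.toEuclideanLin C (v i)).ofLp = C *ᵥ (v i).ofLp := fun i => rfl
  unfold GG
  rw [Matrix.mul_sum, Matrix.sum_mul]
  refine Finset.sum_congr rfl fun i _ => ?_
  rw [h1, Matrix.mul_vecMulVec, Matrix.vecMulVec_mul, Matrix.vecMul_transpose]

theorem GG_append {N r : ℕ} (u : Fin N → EuclideanSpace ℝ (Fin n))
    (z : Fin r → EuclideanSpace ℝ (Fin n)) : GG (Fin.append u z) = GG u + GG z := by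
  unfold GG
  rw [Fin.sum_univ_add]
  simp

theorem exists_remove {N : ℕ} (hN : 0 < N) (u : Fin N → EuclideanSpace ℝ (Fin n))
    (S : Set (EuclideanSpace ℝ (Fin n))) (hu : ∀ i, u i ∈ S) (hG : GG u = 1) (i : Fin N) :
    ∃ w : Fin (N - 1) → EuclideanSpace ℝ (Fin n), (∀ j, w j ∈ S) ∧
      (GG w).det = 1 - ‖u i‖ ^ 2 := by
  obtain ⟨M, rfl⟩ : ∃ M, N = M + 1 := ⟨N - 1, by omega⟩
  refine ⟨fun j => u (i.succAbove j), fun j => hu _, ?_⟩
  have h1 := GG_succAbove u i
  have h2 : (GG fun j => u (i.succAbove j)).det = 1 - ‖u i‖ ^ 2 := by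
    rw [h1, det_add_vmv (by rw [hG]; simp), hG]
    simp only [Matrix.det_one, inv_one, Matrix.one_mulVec, one_mul]
    have h3 : (u i).ofLp ⬝ᵥ (u i).ofLp = ‖u i‖ ^ 2 := by
      rw [EuclideanSpace.norm_sq_eq]
      simp [dotProduct, sq]
    rw [h3]
    ring
  exact h2

theorem exists_whiten {A : Matrix (Fin n) (Fin n) ℝ} (hA : A.PosDef) :
    ∃ C : Matrix (Fin n) (Fin n) ℝ, IsUnit C.det ∧ C * A * Cᵀ = 1 := by
  open scoped MatrixOrder in
  obtain ⟨D, hD⟩ := CStarAlgebra.nonneg_iff_eq_star_mul_self.mp hA.posSemidef.nonneg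
  rw [Matrix.star_eq_conjTranspose, Matrix.conjTranspose_eq_transpose_of_trivial] at hD
  have hdet : A.det ≠ 0 := hA.det_pos.ne'
  have hDdet : IsUnit D.det := by
    rw [isUnit_iff_ne_zero]
    intro h0
    apply hdet
    rw [hD, Matrix.det_mul, h0, mul_zero]
  have hDdet' : IsUnit Dᵀ.det := by rwa [Matrix.det_transpose]
  refine ⟨Dᵀ⁻¹, ?_, ?_⟩
  · rw [Matrix.det_nonsing_inv]
    exact hDdet'.ringInverse
  · rw [hD, ← Matrix.mul_assoc, Matrix.nonsing_inv_mul _ hDdet', Matrix.one_mul,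
      ← Matrix.transpose_nonsing_inv, Matrix.transpose_transpose, Matrix.mul_nonsing_inv _ hDdet]

end Opt

open Opt in
/-- TT-A. -/
theorem exists_optimal {n : ℕ} (hn : 0 < n) {B : Set (EuclideanSpace ℝ (Fin n))}
    (hc : IsCompact B) (hspan : Submodule.span ℝ B = ⊤) (τ : ℝ) (hτ : 0 < τ) :
    ∃ (k : ℕ) (L : EuclideanSpace ℝ (Fin n) ≃ₗ[ℝ] EuclideanSpace ℝ (Fin n))
      (u : Fin (n + k) → EuclideanSpace ℝ (Fin n)),
      (∀ i, u i ∈ (fun z => L z) '' B) ∧
      (∀ x : EuclideanSpace ℝ (Fin n), ∑ i, inner ℝ (u i) x • u i = x) ∧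
      (∀ z ∈ (fun z => L z) '' B, ‖z‖ ^ 2 ≤ τ) ∧
      (0 < k → ∀ i, (1 + τ) * (1 - ‖u i‖ ^ 2) ≤ 1) ∧
      (k : ℝ) * τ ≤ n ∧
      (∀ (r : ℕ) (z : Fin r → EuclideanSpace ℝ (Fin n)), (∀ j, z j ∈ (fun z => L z) '' B) →
        (1 + Matrix.gram ℝ z).det ≤ ∏ i ∈ Finset.range r, (1 + (n : ℝ) / (i + 1))) := by
  have hne : B.Nonempty := by
    obtain ⟨v, hv, -⟩ := exists_posi hn hspan n le_rfl
    exact ⟨v ⟨0, hn⟩, hv _⟩
  choose v hvB hvmax using exists_maxi hc hne
  set W : ℕ → ℝ := fun N => (GG (v N)).det with hW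
  have hWpos : ∀ N, n ≤ N → 0 < W N := by
    intro N hN
    obtain ⟨w, hw, hw0⟩ := exists_posi hn hspan N hN
    exact hw0.trans_le (hvmax N w hw)
  have hstep : ∀ m : ℕ, ((m : ℝ) + 1) * W (n + m + 1) ≤ ((n : ℝ) + m + 1) * W (n + m) := by
    intro m
    have h1 := sum_det_succAbove (v (n + m + 1))
      (isUnit_iff_ne_zero.2 (hWpos (n + m + 1) (by omega)).ne')
    have h2 : ∑ i : Fin (n + m + 1), (GG (fun j => v (n + m + 1) (i.succAbove j))).det ≤
        ∑ i : Fin (n + m + 1), W (n + m) :=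
      Finset.sum_le_sum fun i _ => hvmax (n + m) _ fun j => hvB _ _
    rw [h1] at h2
    simp only [Finset.sum_const, Finset.card_univ, Fintype.card_fin, nsmul_eq_mul] at h2
    push_cast at h2
    calc ((m : ℝ) + 1) * W (n + m + 1) = ((n : ℝ) + m + 1 - n) * W (n + m + 1) := by ring
      _ ≤ _ := h2
  have hstep' : ∀ m : ℕ, W (n + m + 1) ≤ (1 + (n : ℝ) / (m + 1)) * W (n + m) := by
    intro m
    have hm : (0 : ℝ) < (m : ℝ) + 1 := by positivity
    have h1 := hstep m
    have h2 : (1 + (n : ℝ) / (m + 1)) * W (n + m) = ((n : ℝ) + m + 1) * W (n + m) / (m + 1) := by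
      field_simp
      ring
    rw [h2, le_div_iff₀ hm]
    linarith
  have hex : ∃ m : ℕ, W (n + m + 1) ≤ (1 + τ) * W (n + m) := by
    obtain ⟨m, hm⟩ := exists_nat_gt ((n : ℝ) / τ)
    refine ⟨m, (hstep' m).trans ?_⟩
    refine mul_le_mul_of_nonneg_right ?_ (hWpos _ (by omega)).le
    have hm1 : (0 : ℝ) < (m : ℝ) + 1 := by positivity
    have : (n : ℝ) / (m + 1) ≤ τ := by
      rw [div_lt_iff₀ hτ] at hm
      rw [div_le_iff₀ hm1]
      nlinarith
    linarith
  classical
  set k := Nat.find hex with hkdef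
  have hk : W (n + k + 1) ≤ (1 + τ) * W (n + k) := Nat.find_spec hex
  have hkmin : ∀ m, m < k → (1 + τ) * W (n + m) < W (n + m + 1) := by
    intro m hm
    exact not_le.1 (Nat.find_min hex hm)
  have hApos : (GG (v (n + k))).PosDef := by
    rw [(GG_posSemidef _).posDef_iff_det_ne_zero]
    exact (hWpos (n + k) (by omega)).ne'
  obtain ⟨C, hCdet, hC⟩ := exists_whiten hApos
  have hCbij : Function.Bijective (Matrix.toEuclideanLin C) := by
    have hinj : Function.Injective (Matrix.toEuclideanLin C) := by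
      rw [← LinearMap.ker_eq_bot, LinearMap.ker_eq_bot']
      intro x hx
      have h1 : C *ᵥ x.ofLp = 0 := by
        have : (Matrix.toEuclideanLin C x).ofLp = 0 := by rw [hx]; rfl
        exact this
      have h2 : x.ofLp = 0 := by
        have h3 : C⁻¹ *ᵥ (C *ᵥ x.ofLp) = x.ofLp := by
          rw [Matrix.mulVec_mulVec, Matrix.nonsing_inv_mul _ hCdet, Matrix.one_mulVec]
        rw [← h3, h1, Matrix.mulVec_zero]
      ext i
      exact congrFun h2 i
    exact ⟨hinj, LinearMap.surjective_of_injective hinj⟩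
  set L : EuclideanSpace ℝ (Fin n) ≃ₗ[ℝ] EuclideanSpace ℝ (Fin n) :=
    LinearEquiv.ofBijective (Matrix.toEuclideanLin C) hCbij with hL
  have hLapp : ∀ x, L x = Matrix.toEuclideanLin C x := fun x => rfl
  set u : Fin (n + k) → EuclideanSpace ℝ (Fin n) := fun i => L (v (n + k) i) with hu
  have hGu : GG u = 1 := by
    have := GG_map C (v (n + k))
    rw [hC] at this
    exact this
  set δ : ℝ := C.det ^ 2 with hδ
  have hδpos : 0 < δ := by
    have := isUnit_iff_ne_zero.1 hCdet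
    positivity
  have hδW : δ * W (n + k) = 1 := by
    have h1 : (GG u).det = C.det * W (n + k) * C.det := by
      have := GG_map C (v (n + k))
      have h2 : GG u = C * GG (v (n + k)) * Cᵀ := this
      rw [h2, Matrix.det_mul, Matrix.det_mul, Matrix.det_transpose]
    rw [hGu, Matrix.det_one] at h1
    rw [hδ]
    linarith
  -- the maximum over the transformed set
  have hmax' : ∀ (N : ℕ) (w : Fin N → EuclideanSpace ℝ (Fin n)),
      (∀ i, w i ∈ (fun z => L z) '' B) → (GG w).det ≤ δ * W N := by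
    intro N w hw
    choose w' hw' hw'' using hw
    have h1 : w = fun i => Matrix.toEuclideanLin C (w' i) := by
      funext i
      exact (hw'' i).symm
    rw [h1, GG_map, Matrix.det_mul, Matrix.det_mul, Matrix.det_transpose]
    have h2 := hvmax N w' hw'
    calc C.det * (GG w').det * C.det = δ * (GG w').det := by rw [hδ]; ring
      _ ≤ δ * W N := mul_le_mul_of_nonneg_left h2 hδpos.le
  have huB : ∀ i, u i ∈ (fun z => L z) '' B := fun i => ⟨v (n + k) i, hvB _ _, rfl⟩
  have happ : ∀ (r : ℕ) (z : Fin r → EuclideanSpace ℝ (Fin n)),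
      (∀ j, z j ∈ (fun z => L z) '' B) → (1 + Matrix.gram ℝ z).det ≤ δ * W (n + k + r) := by
    intro r z hz
    have h1 : (1 + Matrix.gram ℝ z).det = (GG (Fin.append u z)).det := by
      rw [GG_append, hGu, gram_eq, Matrix.det_one_add_mul_comm, ← GG_eq]
    rw [h1]
    refine hmax' _ _ fun i => ?_
    refine Fin.addCases (fun i => ?_) (fun i => ?_) i
    · rw [Fin.append_left]
      exact huB i
    · rw [Fin.append_right]
      exact hz i
  have hgrow : ∀ r : ℕ, δ * W (n + k + r) ≤ ∏ i ∈ Finset.range r, (1 + (n : ℝ) / (i + 1)) := by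
    intro r
    induction r with
    | zero => simp [hδW]
    | succ r ih =>
      rw [Finset.prod_range_succ]
      have h1 := hstep' (k + r)
      have h2 : n + (k + r) = n + k + r := by omega
      rw [h2] at h1
      have h3 : (1 + (n : ℝ) / ((k + r : ℕ) + 1)) ≤ 1 + (n : ℝ) / (r + 1) := by
        have : (n : ℝ) / ((k + r : ℕ) + 1) ≤ (n : ℝ) / (r + 1) := by
          apply div_le_div_of_nonneg_left (by positivity) (by positivity)
          push_cast
          have : (0 : ℝ) ≤ k := by positivity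
          linarith
        linarith
      have h4 : 0 < W (n + k + r) := hWpos _ (by omega)
      calc δ * W (n + k + r + 1) ≤ δ * ((1 + (n : ℝ) / (r + 1)) * W (n + k + r)) := by
            refine mul_le_mul_of_nonneg_left (h1.trans ?_) hδpos.le
            exact mul_le_mul_of_nonneg_right h3 h4.le
        _ = (δ * W (n + k + r)) * (1 + (n : ℝ) / (r + 1)) := by ring
        _ ≤ _ := mul_le_mul_of_nonneg_right ih (by positivity)
  refine ⟨k, L, u, huB, ?_, ?_, ?_, ?_, ?_⟩
  · intro x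
    have h1 := GG_mulVec u x
    rw [hGu, Matrix.one_mulVec] at h1
    ext a
    have h2 := congrFun h1 a
    rw [h2]
    simp
  · intro z hz
    have h1 := happ 1 (fun _ => z) (fun _ => hz)
    have h2 : (1 + Matrix.gram ℝ (fun _ : Fin 1 => z)).det = 1 + ‖z‖ ^ 2 := by
      rw [Matrix.det_fin_one]
      simp [Matrix.gram]
    rw [h2] at h1
    have h3 : δ * W (n + k + 1) ≤ δ * ((1 + τ) * W (n + k)) :=
      mul_le_mul_of_nonneg_left hk hδpos.le
    have h4 : δ * ((1 + τ) * W (n + k)) = 1 + τ := by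
      rw [mul_left_comm, hδW, mul_one]
    linarith
  · intro hk0 i
    obtain ⟨w, hw, hwd⟩ := exists_remove (by omega) u _ huB hGu i
    have h1 := hmax' _ w hw
    rw [hwd] at h1
    have h2 := hkmin (k - 1) (by omega)
    have h3 : n + (k - 1) + 1 = n + k := by omega
    have h4 : n + (k - 1) = n + k - 1 := by omega
    rw [h3, h4] at h2
    calc (1 + τ) * (1 - ‖u i‖ ^ 2) ≤ (1 + τ) * (δ * W (n + k - 1)) :=
          mul_le_mul_of_nonneg_left h1 (by positivity)
      _ = δ * ((1 + τ) * W (n + k - 1)) := by ring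
      _ ≤ δ * W (n + k) := mul_le_mul_of_nonneg_left h2.le hδpos.le
      _ = 1 := hδW
  · rcases Nat.eq_zero_or_pos k with hk0 | hk0
    · rw [hk0]
      simp
    · have h2 := hkmin (k - 1) (by omega)
      have h1 := hstep (k - 1)
      have h3 : n + (k - 1) + 1 = n + k := by omega
      rw [h3] at h1 h2
      have h5 : ((k - 1 : ℕ) : ℝ) = (k : ℝ) - 1 := by
        rw [Nat.cast_sub (by omega)]
        simp
      rw [h5] at h1
      have h6 : 0 < W (n + k) := hWpos _ (by omega)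
      have h7 : 0 < W (n + (k - 1)) := hWpos _ (by omega)
      have hkpos : (0 : ℝ) < k := by exact_mod_cast hk0
      have h8 : (k : ℝ) * ((1 + τ) * W (n + (k - 1))) ≤ (n + k) * W (n + (k - 1)) := by
        calc (k : ℝ) * ((1 + τ) * W (n + (k - 1))) ≤ k * W (n + k) :=
              mul_le_mul_of_nonneg_left h2.le hkpos.le
          _ ≤ _ := by linarith
      have h9 : (k : ℝ) * (1 + τ) * W (n + (k - 1)) ≤ (n + k) * W (n + (k - 1)) := by
        linarith
      have h10 := le_of_mul_le_mul_right h9 h7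
      linarith
  · intro r z hz
    exact (happ r z hz).trans (hgrow r)

end Pool.Agent.TT
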